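import Pool.Agent.H60.HH.PLN

/-!
# KXT: the factor `G` can be taken out (MP_347b49_nt)
-/

set_option autoImplicit false

open NumberField MeasureTheory
open scoped nonZeroDivisors ContDiff

namespace Pool.Agent.H60.HH

open Pool.Agent.H33.HH Pool.Agent.H28.RC Pool.Agent.H37.CV Pool.Agent.H25.HK

theorem H_bound {H : ℝ → ℝ} (hH : IsH H) :
    ∃ C : ℝ, 0 ≤ C ∧ ∀ v, 0 ≤ v → H v ≤ C ∧ Real.sqrt v * H v ≤ C := by
  obtain ⟨M, hM⟩ := (isCompact_Icc (a := (0 : ℝ)) (b := 2)).exists_bound_of_continuousOn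
    hH.smooth.continuous.continuousOn
  have hM0 : 0 ≤ M := (norm_nonneg _).trans (hM 0 ⟨le_rfl, zero_le_two⟩)
  refine ⟨2 * M + 1, by linarith, fun v hv => ?_⟩
  rcases le_total v 2 with h2 | h2
  · have h3 := hM v ⟨hv, h2⟩
    rw [Real.norm_eq_abs] at h3
    have h4 := (le_abs_self _).trans h3
    have h5 : Real.sqrt v ≤ 2 := by
      rw [Real.sqrt_le_left zero_le_two]
      linarith
    have h6 := hH.nonneg v
    refine ⟨by linarith, ?_⟩
    have h7 : Real.sqrt v * H v ≤ 2 * H v := mul_le_mul_of_nonneg_right h5 h6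
    linarith
  · have h3 := hH.high v h2
    have hv0 : 0 < v := by linarith
    have h4 : Real.sqrt v * H v = 1 := by
      rw [h3, Real.sqrt_eq_rpow, ← Real.rpow_add hv0]
      norm_num
    have h5 : H v ≤ 1 := by
      rw [h3]
      exact Real.rpow_le_one_of_one_le_of_nonpos (by linarith) (by norm_num)
    exact ⟨by linarith, by linarith⟩

theorem G_bound {G : ℝ → ℝ} (hG : IsG G) : ∃ C : ℝ, 0 ≤ C ∧ ∀ v, |G v| ≤ C := by
  obtain ⟨M, hM⟩ := (isCompact_Icc (a := (1 : ℝ)) (b := 3)).exists_bound_of_continuousOn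
    hG.smooth.continuous.continuousOn
  have hM0 : 0 ≤ M := (norm_nonneg _).trans (hM 1 ⟨le_rfl, by norm_num⟩)
  refine ⟨M + 1, by linarith, fun v => ?_⟩
  rcases le_total v 1 with h1 | h1
  · rw [hG.low v h1]
    norm_num
    exact hM0
  · rcases le_total v 3 with h3 | h3
    · have := hM v ⟨h1, h3⟩
      rw [Real.norm_eq_abs] at this
      linarith
    · rw [hG.high v h3]
      norm_num
      linarith

theorem G_lip {G : ℝ → ℝ} (hG : IsG G) : ∃ L : ℝ, 0 ≤ L ∧ ∀ a b, |G a - G b| ≤ L * |a - b| := by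
  have hd : Continuous (deriv G) := hG.smooth.continuous_deriv (by simp)
  obtain ⟨M, hM⟩ := (isCompact_Icc (a := (0 : ℝ)) (b := 4)).exists_bound_of_continuousOn
    hd.continuousOn
  have hM0 : 0 ≤ M := (norm_nonneg _).trans (hM 0 ⟨le_rfl, by norm_num⟩)
  have hb : ∀ v, ‖deriv G v‖ ≤ M := by
    intro v
    rcases lt_or_ge v 1 with h1 | h1
    · have : G =ᶠ[nhds v] fun _ => (1 : ℝ) := by
        filter_upwards [Iio_mem_nhds h1] with w hw
        exact hG.low w (le_of_lt hw)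
      rw [this.deriv_eq, deriv_const, norm_zero]
      exact hM0
    · rcases lt_or_ge 3 v with h3 | h3
      · have : G =ᶠ[nhds v] fun _ => (0 : ℝ) := by
          filter_upwards [Ioi_mem_nhds h3] with w hw
          exact hG.high w (le_of_lt hw)
        rw [this.deriv_eq, deriv_const, norm_zero]
        exact hM0
      · exact hM v ⟨by linarith, by linarith⟩
  refine ⟨M, hM0, fun a b => ?_⟩
  have := Convex.norm_image_sub_le_of_norm_deriv_le (f := G) (s := Set.univ) (x := b) (y := a)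
    (fun x _ => (hG.smooth.differentiable (by simp)) x) (fun x _ => hb x) convex_univ
    (Set.mem_univ _) (Set.mem_univ _)
  simpa [Real.norm_eq_abs] using this

/-- the integral of `(1 + u)^(-2)` -/
noncomputable def c0 : ℝ := ∫ u in Set.Ioi (0 : ℝ), ((1 + u) ^ 2)⁻¹

theorem c0_nonneg : 0 ≤ c0 :=
  setIntegral_nonneg measurableSet_Ioi fun u _ => by positivity

theorem int_rho {x : ℝ} (hx : 0 < x) :
    ∫ g : ℂ, ((1 + ‖g - 1‖ ^ 2 * x) ^ 2)⁻¹ = Real.pi * c0 / x := by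
  have h1 : ∫ g : ℂ, ((1 + ‖g - 1‖ ^ 2 * x) ^ 2)⁻¹ = ∫ g : ℂ, ((1 + ‖g‖ ^ 2 * x) ^ 2)⁻¹ :=
    integral_sub_right_eq_self (fun g : ℂ => ((1 + ‖g‖ ^ 2 * x) ^ 2)⁻¹) (1 : ℂ)
  rw [h1, int_radial (fun u => ((1 + u * x) ^ 2)⁻¹)]
  have h2 := MeasureTheory.integral_comp_mul_right_Ioi (fun u : ℝ => ((1 + u) ^ 2)⁻¹) 0 hx
  rw [zero_mul] at h2
  rw [h2]
  unfold c0
  rw [smul_eq_mul]
  ring

theorem integrable_rho {x : ℝ} (hx : 0 < x) :
    Integrable fun g : ℂ => ((1 + ‖g - 1‖ ^ 2 * x) ^ 2)⁻¹ := by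
  have h0 : Integrable fun g : ℂ => ((1 + ‖g‖ ^ 2 * x) ^ 2)⁻¹ := by
    have h1 : Integrable (fun g : ℂ => ((1 : ℝ) + ‖g‖ ^ 2) ^ (-(4 : ℝ) / 2)) :=
      integrable_rpow_neg_one_add_norm_sq (by rw [Complex.finrank_real_complex]; norm_num)
    have h2 := h1.const_mul ((min 1 x ^ 2)⁻¹)
    refine h2.mono' ?_ (Filter.Eventually.of_forall fun g => ?_)
    · refine Continuous.aestronglyMeasurable ?_
      refine Continuous.inv₀ (by fun_prop) fun g => ?_
      positivity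
    · have hm : 0 < min 1 x := lt_min one_pos hx
      have e1 : ((1 : ℝ) + ‖g‖ ^ 2) ^ (-(4 : ℝ) / 2) = ((1 + ‖g‖ ^ 2) ^ 2)⁻¹ := by
        have : (-(4 : ℝ) / 2) = -((2 : ℕ) : ℝ) := by norm_num
        rw [this, Real.rpow_neg (by positivity), Real.rpow_natCast]
      rw [e1, Real.norm_eq_abs, abs_of_nonneg (by positivity), ← mul_inv, ← mul_pow]
      refine inv_anti₀ (by positivity) ?_
      refine pow_le_pow_left₀ (by positivity) ?_ 2
      have m1 : min 1 x ≤ 1 := min_le_left _ _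
      have m2 : min 1 x ≤ x := min_le_right _ _
      have hn : 0 ≤ ‖g‖ ^ 2 := by positivity
      nlinarith [mul_le_mul_of_nonneg_left m2 hn]
  exact h0.comp_sub_right 1

theorem sq_sub_one_le (g : ℂ) : |‖g‖ ^ 2 - 1| ≤ ‖g - 1‖ * (2 + ‖g - 1‖) := by
  have h1 : |‖g‖ - 1| ≤ ‖g - 1‖ := by
    have := abs_norm_sub_norm_le g 1
    rwa [norm_one] at this
  have h2 : ‖g‖ ≤ ‖g - 1‖ + 1 := by
    have := norm_sub_norm_le g 1
    rw [norm_one] at this
    linarith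
  have h3 : ‖g‖ ^ 2 - 1 = (‖g‖ - 1) * (‖g‖ + 1) := by ring
  rw [h3, abs_mul, abs_of_nonneg (by positivity : 0 ≤ ‖g‖ + 1)]
  exact mul_le_mul h1 (by linarith) (by positivity) (norm_nonneg _)

/-- the pointwise bound of the product for `1 ≤ x` -/
theorem poly_le {x z : ℝ} (hx : 1 ≤ x) (hz : 0 ≤ z) :
    z * (2 + z) ≤ 2 * (Real.sqrt x)⁻¹ * (1 + z ^ 2 * x) := by
  have hs : 1 ≤ Real.sqrt x := by
    rw [Real.one_le_sqrt]; exact hx
  have hs2 : Real.sqrt x ^ 2 = x := Real.sq_sqrt (by linarith)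
  have key : ∀ s : ℝ, 1 ≤ s → z * (2 + z) ≤ 2 * s⁻¹ * (1 + z ^ 2 * s ^ 2) := by
    intro s hs
    have hs0 : 0 < s := by linarith
    have : 2 * s⁻¹ * (1 + z ^ 2 * s ^ 2) = (2 * (1 + z ^ 2 * s ^ 2)) / s := by
      field_simp
    rw [this, le_div_iff₀ hs0]
    have h1 : 2 * (z * s) ≤ 1 + (z * s) ^ 2 := by nlinarith [sq_nonneg (z * s - 1)]
    have h2 : z * z * s ≤ (z * s) ^ 2 := by
      have : (z * s) ^ 2 = z * z * s * s := by ring
      rw [this]
      nlinarith [mul_nonneg (mul_nonneg hz hz) hs0.le]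
    nlinarith
  have := key _ hs
  rwa [hs2] at this

theorem pf_KXT (h : T_THB) : T_KXT := by
  intro K _ _ _ W G H hW hG hH
  obtain ⟨hR, -, hRb⟩ := h K W hW
  obtain ⟨C3, hC3, hb⟩ := hRb 3
  obtain ⟨CH, hCH0, hCH⟩ := H_bound hH
  obtain ⟨L, hL0, hL⟩ := G_lip hG
  obtain ⟨CG, hCG0, hCG⟩ := G_bound hG
  have hRc : Continuous (Rr K W) := hR.continuous
  refine ⟨(CH * C3 * (2 * L * Real.sqrt 6 + (CG + 1))) * (Real.pi * c0), by
    have := c0_nonneg; positivity, ?_⟩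
  intro u x t hu hu1 hx ht htx
  have hc1 : Continuous fun g : ℂ => ‖g - 1‖ ^ 2 * x :=
    ((continuous_norm.comp (continuous_id.sub continuous_const)).pow 2).mul continuous_const
  have hc2 : Continuous fun g : ℂ => H (‖g‖ ^ 2) * Rr K W (‖g - 1‖ ^ 2 * x) :=
    (hH.smooth.continuous.comp (continuous_norm.pow 2)).mul (hRc.comp hc1)
  have hRho : ∀ g : ℂ, |Rr K W (‖g - 1‖ ^ 2 * x)| ≤ C3 * ((1 + ‖g - 1‖ ^ 2 * x) ^ 3)⁻¹ := by
    intro g
    have h1 := (hb (‖g - 1‖ ^ 2 * x) (by positivity)).1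
    rwa [div_eq_mul_inv] at h1
  have h32 : ∀ g : ℂ, ((1 + ‖g - 1‖ ^ 2 * x) ^ 3)⁻¹ ≤ ((1 + ‖g - 1‖ ^ 2 * x) ^ 2)⁻¹ := by
    intro g
    refine inv_anti₀ (by positivity) ?_
    have : (1 : ℝ) ≤ 1 + ‖g - 1‖ ^ 2 * x := by
      have : 0 ≤ ‖g - 1‖ ^ 2 * x := by positivity
      linarith
    exact pow_le_pow_right₀ this (by norm_num)
  have hRho2 : ∀ g : ℂ, |Rr K W (‖g - 1‖ ^ 2 * x)| ≤ C3 * ((1 + ‖g - 1‖ ^ 2 * x) ^ 2)⁻¹ :=
    fun g => (hRho g).trans (mul_le_mul_of_nonneg_left (h32 g) hC3)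
  have hH2 : ∀ g : ℂ, |H (‖g‖ ^ 2)| ≤ CH := by
    intro g
    rw [abs_of_nonneg (hH.nonneg _)]
    exact (hCH _ (by positivity)).1
  have i0 : Integrable (fun g : ℂ => H (‖g‖ ^ 2) * Rr K W (‖g - 1‖ ^ 2 * x)) := by
    refine ((integrable_rho hx).const_mul (CH * C3)).mono' hc2.aestronglyMeasurable
      (Filter.Eventually.of_forall fun g => ?_)
    rw [Real.norm_eq_abs, abs_mul]
    calc |H (‖g‖ ^ 2)| * |Rr K W (‖g - 1‖ ^ 2 * x)|
        ≤ CH * (C3 * ((1 + ‖g - 1‖ ^ 2 * x) ^ 2)⁻¹) :=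
          mul_le_mul (hH2 g) (hRho2 g) (abs_nonneg _) hCH0
      _ = _ := by ring
  have i1 : Integrable (fun g : ℂ => H (‖g‖ ^ 2) * G (‖g‖ ^ 2 * t) *
      Rr K W (‖g - 1‖ ^ 2 * x)) :=
    ((f_cont hG hH t).mul (hRc.comp hc1)).integrable_of_hasCompactSupport
      (f_supp (H := H) hG ht).mul_right
  have e1 : Kx K W G H x t - G t * K0 K W H x =
      ∫ g : ℂ, H (‖g‖ ^ 2) * (G (‖g‖ ^ 2 * t) - G t) * Rr K W (‖g - 1‖ ^ 2 * x) := by
    unfold Kx K0
    rw [← integral_const_mul, ← integral_sub i1 (i0.const_mul _)]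
    refine integral_congr_ae (Filter.Eventually.of_forall fun g => ?_)
    ring
  rw [e1]
  -- it suffices to have a pointwise bound
  have key : ∀ B : ℝ, 0 ≤ B → (∀ g : ℂ,
      |H (‖g‖ ^ 2) * (G (‖g‖ ^ 2 * t) - G t) * Rr K W (‖g - 1‖ ^ 2 * x)| ≤
        B * ((1 + ‖g - 1‖ ^ 2 * x) ^ 2)⁻¹) →
      B ≤ (CH * C3 * (2 * L * Real.sqrt 6 + (CG + 1))) * Real.sqrt u →
      |∫ g : ℂ, H (‖g‖ ^ 2) * (G (‖g‖ ^ 2 * t) - G t) * Rr K W (‖g - 1‖ ^ 2 * x)| ≤
        (CH * C3 * (2 * L * Real.sqrt 6 + (CG + 1))) * (Real.pi * c0) * u ^ (1 / 2 : ℝ) / x := by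
    intro B hB0 hB hBu
    have h1 := norm_integral_le_of_norm_le (μ := (volume : Measure ℂ))
      ((integrable_rho hx).const_mul B) (Filter.Eventually.of_forall fun g => by
        rw [Real.norm_eq_abs]; exact hB g)
    rw [integral_const_mul, int_rho hx, Real.norm_eq_abs] at h1
    refine h1.trans ?_
    rw [← Real.sqrt_eq_rpow]
    have hc : 0 ≤ Real.pi * c0 / x := by
      have := c0_nonneg; positivity
    calc B * (Real.pi * c0 / x)
        ≤ ((CH * C3 * (2 * L * Real.sqrt 6 + (CG + 1))) * Real.sqrt u) * (Real.pi * c0 / x) :=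
          mul_le_mul_of_nonneg_right hBu hc
      _ = _ := by ring
  have hK : 0 ≤ CH * C3 := mul_nonneg hCH0 hC3
  rcases le_or_gt 6 t with h6 | h6
  · refine key 0 le_rfl (fun g => ?_) (by positivity)
    rw [zero_mul]
    have hz : H (‖g‖ ^ 2) * (G (‖g‖ ^ 2 * t) - G t) = 0 := by
      rcases le_total (‖g‖ ^ 2) (1 / 2) with h1 | h1
      · rw [hH.low _ h1, zero_mul]
      · have h2 : 3 ≤ ‖g‖ ^ 2 * t := by nlinarith
        rw [hG.high _ h2, hG.high t (by linarith), sub_zero, mul_zero]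
    rw [hz, zero_mul, abs_zero]
  rcases le_or_gt 1 x with hx1 | hx1
  · refine key (CH * C3 * (2 * L * (t * (Real.sqrt x)⁻¹))) (by positivity) (fun g => ?_) ?_
    · rw [abs_mul, abs_mul]
      have h1 : |G (‖g‖ ^ 2 * t) - G t| ≤ L * (t * (‖g - 1‖ * (2 + ‖g - 1‖))) := by
        refine (hL _ _).trans (mul_le_mul_of_nonneg_left ?_ hL0)
        have : ‖g‖ ^ 2 * t - t = t * (‖g‖ ^ 2 - 1) := by ring
        rw [this, abs_mul, abs_of_pos ht]
        exact mul_le_mul_of_nonneg_left (sq_sub_one_le g) ht.le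
      have h2 : ‖g - 1‖ * (2 + ‖g - 1‖) ≤ 2 * (Real.sqrt x)⁻¹ * (1 + ‖g - 1‖ ^ 2 * x) :=
        poly_le hx1 (norm_nonneg _)
      have h3 : |G (‖g‖ ^ 2 * t) - G t| ≤
          L * (t * (2 * (Real.sqrt x)⁻¹ * (1 + ‖g - 1‖ ^ 2 * x))) :=
        h1.trans (mul_le_mul_of_nonneg_left (mul_le_mul_of_nonneg_left h2 ht.le) hL0)
      have h4 := mul_le_mul (hH2 g) h3 (abs_nonneg _) hCH0
      have h5 := mul_le_mul h4 (hRho g) (abs_nonneg _) (by positivity)
      refine h5.trans (le_of_eq ?_)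
      have hne : (1 + ‖g - 1‖ ^ 2 * x) ≠ 0 := by positivity
      field_simp
    · have h1 : t * (Real.sqrt x)⁻¹ ≤ Real.sqrt 6 * Real.sqrt u := by
        have hs : 0 < Real.sqrt x := Real.sqrt_pos.2 hx
        rw [← div_eq_mul_inv, div_le_iff₀ hs, ← Real.sqrt_mul (by norm_num), ←
          Real.sqrt_mul (by positivity)]
        refine Real.le_sqrt_of_sq_le ?_
        nlinarith
      have h2 : 2 * L * (t * (Real.sqrt x)⁻¹) ≤ 2 * L * (Real.sqrt 6 * Real.sqrt u) :=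
        mul_le_mul_of_nonneg_left h1 (by positivity)
      have h3 : 0 ≤ (CG + 1) * Real.sqrt u := by positivity
      calc CH * C3 * (2 * L * (t * (Real.sqrt x)⁻¹))
          ≤ CH * C3 * (2 * L * (Real.sqrt 6 * Real.sqrt u)) :=
            mul_le_mul_of_nonneg_left h2 hK
        _ ≤ CH * C3 * (2 * L * (Real.sqrt 6 * Real.sqrt u) + (CG + 1) * Real.sqrt u) :=
            mul_le_mul_of_nonneg_left (by linarith) hK
        _ = _ := by ring
  · have ht1 : t ≤ 1 := by nlinarith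
    refine key (CH * C3 * ((CG + 1) * Real.sqrt t)) (by positivity) (fun g => ?_) ?_
    · have h1 : |H (‖g‖ ^ 2) * (G (‖g‖ ^ 2 * t) - G t)| ≤ CH * ((CG + 1) * Real.sqrt t) := by
        rcases le_or_gt (‖g‖ ^ 2 * t) 1 with h2 | h2
        · rw [hG.low _ h2, hG.low t ht1, sub_self, mul_zero, abs_zero]
          positivity
        · rw [abs_mul, abs_of_nonneg (hH.nonneg _)]
          have h3 : |G (‖g‖ ^ 2 * t) - G t| ≤ CG + 1 := by
            have a1 := hCG (‖g‖ ^ 2 * t)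
            have a2 : |G t| = 1 := by
              rw [hG.low t ht1, abs_one]
            have a3 := abs_sub (G (‖g‖ ^ 2 * t)) (G t)
            linarith
          have h4 : 1 ≤ Real.sqrt (‖g‖ ^ 2) * Real.sqrt t := by
            rw [← Real.sqrt_mul (by positivity), Real.one_le_sqrt]
            exact h2.le
          have h5 := (hCH (‖g‖ ^ 2) (by positivity)).2
          have h6 : H (‖g‖ ^ 2) ≤ CH * Real.sqrt t := by
            calc H (‖g‖ ^ 2) = 1 * H (‖g‖ ^ 2) := (one_mul _).symm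
              _ ≤ (Real.sqrt (‖g‖ ^ 2) * Real.sqrt t) * H (‖g‖ ^ 2) :=
                mul_le_mul_of_nonneg_right h4 (hH.nonneg _)
              _ = (Real.sqrt (‖g‖ ^ 2) * H (‖g‖ ^ 2)) * Real.sqrt t := by ring
              _ ≤ CH * Real.sqrt t := mul_le_mul_of_nonneg_right h5 (Real.sqrt_nonneg _)
          calc H (‖g‖ ^ 2) * |G (‖g‖ ^ 2 * t) - G t|
              ≤ (CH * Real.sqrt t) * (CG + 1) := mul_le_mul h6 h3 (abs_nonneg _) (by positivity)
            _ = _ := by ring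
      rw [abs_mul]
      refine (mul_le_mul h1 (hRho2 g) (abs_nonneg _) (by positivity)).trans (le_of_eq ?_)
      ring
    · have h1 : Real.sqrt t ≤ Real.sqrt u := Real.sqrt_le_sqrt (by nlinarith)
      have h2 : (CG + 1) * Real.sqrt t ≤ (CG + 1) * Real.sqrt u :=
        mul_le_mul_of_nonneg_left h1 (by linarith)
      have h3 : 0 ≤ 2 * L * Real.sqrt 6 * Real.sqrt u := by positivity
      calc CH * C3 * ((CG + 1) * Real.sqrt t)
          ≤ CH * C3 * (2 * L * Real.sqrt 6 * Real.sqrt u + (CG + 1) * Real.sqrt u) :=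
            mul_le_mul_of_nonneg_left (by linarith) hK
        _ = _ := by ring

end Pool.Agent.H60.HH
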