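import Pool.Agent.H33.HH.TC

/-!
# PLN: integrals over the plane (MP_347b49_nt)
-/

set_option autoImplicit false

open NumberField MeasureTheory
open scoped nonZeroDivisors ContDiff

namespace Pool.Agent.H60.HH

open Pool.Agent.H33.HH Pool.Agent.H28.RC Pool.Agent.H37.CV Pool.Agent.H25.HK

/-- radial functions in the plane -/
theorem int_radial (h : ℝ → ℝ) :
    ∫ g : ℂ, h (‖g‖ ^ 2) = Real.pi * ∫ u in Set.Ioi (0 : ℝ), h u := by
  have h1 := MeasureTheory.integral_fun_norm_addHaar (E := ℂ) (volume : Measure ℂ)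
    (fun y : ℝ => h (y ^ 2))
  rw [h1, Complex.finrank_real_complex]
  have hv : (volume : Measure ℂ).real (Metric.ball (0 : ℂ) 1) = Real.pi := by
    rw [Measure.real, Complex.volume_ball]
    simp [NNReal.coe_real_pi]
  rw [hv]
  have h2 := MeasureTheory.integral_comp_rpow_Ioi_of_pos (g := h) (p := 2) two_pos
  have h3 : ∫ y in Set.Ioi (0 : ℝ), y ^ (2 - 1) • h (y ^ 2) =
      (1 / 2) * ∫ u in Set.Ioi (0 : ℝ), h u := by
    rw [← h2, ← integral_const_mul]
    refine setIntegral_congr_fun measurableSet_Ioi fun y hy => ?_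
    have e1 : (2 : ℝ) - 1 = 1 := by norm_num
    have e2 : y ^ (2 : ℝ) = y ^ 2 := by
      exact_mod_cast Real.rpow_natCast y 2
    simp only [e1, Real.rpow_one, e2, smul_eq_mul]
    ring
  rw [h3]
  simp only [nsmul_eq_mul, smul_eq_mul]
  push_cast
  ring

theorem H_cont {H : ℝ → ℝ} (hH : IsH H) : Continuous H := hH.smooth.continuous

theorem f_cont {G H : ℝ → ℝ} (hG : IsG G) (hH : IsH H) (t : ℝ) :
    Continuous fun g : ℂ => H (‖g‖ ^ 2) * G (‖g‖ ^ 2 * t) :=
  (hH.smooth.continuous.comp (continuous_norm.pow 2)).mul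
    (hG.smooth.continuous.comp ((continuous_norm.pow 2).mul continuous_const))

theorem f_supp {G H : ℝ → ℝ} (hG : IsG G) {t : ℝ} (ht : 0 < t) :
    HasCompactSupport fun g : ℂ => H (‖g‖ ^ 2) * G (‖g‖ ^ 2 * t) := by
  refine HasCompactSupport.of_support_subset_isCompact
    (isCompact_closedBall (0 : ℂ) (3 / t + 1)) ?_
  intro g hg
  rw [mem_closedBall_zero_iff]
  by_contra hc
  apply hg
  have h1 : 3 / t + 1 < ‖g‖ := not_le.1 hc
  have h0 : 0 < 3 / t := by positivity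
  have h2 : 3 / t ≤ ‖g‖ ^ 2 := by nlinarith
  have h3 : 3 ≤ ‖g‖ ^ 2 * t := (div_le_iff₀ ht).1 h2
  show H (‖g‖ ^ 2) * G (‖g‖ ^ 2 * t) = 0
  rw [hG.high _ h3, mul_zero]

theorem pf_PLN (h : T_THB) : T_PLN := by
  intro K _ _ _ W G H hW hG hH x t hx ht
  have hR : Continuous (Rr K W) := (h K W hW).1.continuous
  have hT : Continuous (Th K W) := by
    have e : Th K W = fun y => Rr K W y + Thi K W := by
      funext y
      unfold Rr
      ring
    rw [e]
    exact hR.add continuous_const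
  have hc : Continuous fun g : ℂ => ‖g - 1‖ ^ 2 * x :=
    ((continuous_norm.comp (continuous_id.sub continuous_const)).pow 2).mul continuous_const
  have hf := f_cont hG hH t
  have hs := f_supp (H := H) hG ht
  have i1 : Integrable (fun g : ℂ => H (‖g‖ ^ 2) * G (‖g‖ ^ 2 * t) * Th K W (‖g - 1‖ ^ 2 * x)) :=
    (hf.mul (hT.comp hc)).integrable_of_hasCompactSupport hs.mul_right
  have i2 : Integrable (fun g : ℂ => H (‖g‖ ^ 2) * G (‖g‖ ^ 2 * t) * Rr K W (‖g - 1‖ ^ 2 * x)) :=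
    (hf.mul (hR.comp hc)).integrable_of_hasCompactSupport hs.mul_right
  have i3 : Integrable (fun g : ℂ => Thi K W * (H (‖g‖ ^ 2) * G (‖g‖ ^ 2 * t))) :=
    (hf.integrable_of_hasCompactSupport hs).const_mul _
  refine ⟨i1, ?_⟩
  have e1 : (fun g : ℂ => H (‖g‖ ^ 2) * G (‖g‖ ^ 2 * t) * Th K W (‖g - 1‖ ^ 2 * x)) =
      fun g : ℂ => Thi K W * (H (‖g‖ ^ 2) * G (‖g‖ ^ 2 * t)) +
        H (‖g‖ ^ 2) * G (‖g‖ ^ 2 * t) * Rr K W (‖g - 1‖ ^ 2 * x) := by
    funext g
    unfold Rr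
    ring
  rw [e1, integral_add i3 i2, integral_const_mul]
  congr 1
  rw [int_radial (fun u => H u * G (u * t))]
  rfl

end Pool.Agent.H60.HH
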