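import Pool.Agent.H33.HH.TC

/-!
# TWA: the total weight (MP_347b49_nt)
-/

set_option autoImplicit false

open NumberField MeasureTheory
open scoped nonZeroDivisors ContDiff

namespace Pool.Agent.H60.HH

open Pool.Agent.H33.HH Pool.Agent.H28.RC Pool.Agent.H37.CV Pool.Agent.H25.HK

section

variable {K : Type} [Field K] [NumberField K]

theorem fin_np (M : ℝ) : {P : PrI K | np P ≤ M}.Finite := by
  refine Set.Finite.of_finite_image (f := Subtype.val) ?_ Subtype.val_injective.injOn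
  refine (Ideal.finite_setOfPred_absNorm_le (S := 𝓞 K) ⌊M⌋₊).subset ?_
  rintro _ ⟨P, hP, rfl⟩
  have h1 : np P ≤ M := hP
  unfold np nm at h1
  exact Nat.le_floor h1

theorem mem_PM {M : ℝ} {P : PrI K} : P ∈ PM K M ↔ np P ≤ M := by
  unfold PM
  rw [dif_pos (fin_np M)]
  simp

/-- the function `w1` is smooth -/
theorem w1_smooth {W : ℝ → ℝ} (hW : IsW W) : ContDiff ℝ ∞ (w1 W) :=
  contDiff_id.mul hW.smooth

theorem w1_high {W : ℝ → ℝ} (hW : IsW W) (u : ℝ) (hu : 1 ≤ u) : w1 W u = 0 := by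
  unfold w1
  rw [hW.high u hu, mul_zero]

/-- bounds of the derivatives -/
theorem w1_bound {W : ℝ → ℝ} (hW : IsW W) : ∃ M : ℝ, 0 ≤ M ∧ ∀ j ≤ 2, ∀ u ∈ Set.Icc (0 : ℝ) 1,
    |iteratedDeriv j (w1 W) u| ≤ M := by
  have h1 : ∀ j : ℕ, ∃ M : ℝ, ∀ u ∈ Set.Icc (0 : ℝ) 1, ‖iteratedDeriv j (w1 W) u‖ ≤ M := by
    intro j
    have hc : Continuous (iteratedDeriv j (w1 W)) :=
      (w1_smooth hW).continuous_iteratedDeriv j (by exact_mod_cast le_top)
    exact isCompact_Icc.exists_bound_of_continuousOn hc.continuousOn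
  choose M hM using h1
  refine ⟨|M 0| + |M 1| + |M 2|, by positivity, fun j hj u hu => ?_⟩
  have h2 := hM j u hu
  rw [Real.norm_eq_abs] at h2
  have e0 := le_abs_self (M 0)
  have e1 := le_abs_self (M 1)
  have e2 := le_abs_self (M 2)
  have f0 := abs_nonneg (M 0)
  have f1 := abs_nonneg (M 1)
  have f2 := abs_nonneg (M 2)
  interval_cases j <;> linarith

open scoped Classical in
theorem TW_eq (P Q : ℝ) (hQ : Q ≠ 0) (W : ℝ → ℝ) :
    TW K P Q W = Q * sumC (K := K) P (fun n => w1 W (nm n / Q)) := by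
  unfold TW sumC
  rw [← tsum_mul_left]
  refine tsum_congr fun I => ?_
  by_cases h : Cp P I.1
  · rw [if_pos h, if_pos h]
    unfold w1
    field_simp
  · rw [if_neg h, if_neg h, mul_zero]

theorem mulQ {a b C M Q : ℝ} (hC : 0 ≤ C) (hM : 0 ≤ M) (hQ : 1 ≤ Q)
    (h : |a - b * Q| ≤ C * M * Q ^ (1 - ((2 : ℕ) : ℝ) / 2)) :
    |Q * a - b * Q ^ 2| ≤ C * M * Q ^ (7 / 4 : ℝ) := by
  have e : Q * a - b * Q ^ 2 = Q * (a - b * Q) := by ring
  have h0 : (1 - ((2 : ℕ) : ℝ) / 2) = 0 := by norm_num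
  rw [h0, Real.rpow_zero, mul_one] at h
  rw [e, abs_mul, abs_of_pos (by linarith : 0 < Q)]
  have h1 : Q ≤ Q ^ (7 / 4 : ℝ) := by
    have := Real.rpow_le_rpow_of_exponent_le hQ (by norm_num : (1 : ℝ) ≤ 7 / 4)
    rwa [Real.rpow_one] at this
  calc Q * |a - b * Q| ≤ Q * (C * M) := mul_le_mul_of_nonneg_left h (by linarith)
    _ = C * M * Q := by ring
    _ ≤ C * M * Q ^ (7 / 4 : ℝ) := mul_le_mul_of_nonneg_left h1 (mul_nonneg hC hM)

end

theorem pf_TWA (h1 : T_IDS) (h2 : T_IDC) : T_TWA := by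
  intro K _ _ _ P W hW
  obtain ⟨M, hM0, hM⟩ := w1_bound hW
  by_cases hP : (SP K P).Nonempty
  · obtain ⟨C, hC, h⟩ := h2 K P 1 2 hP le_rfl one_pos
    refine ⟨C * M, mul_nonneg hC hM0, fun Q hQ => ?_⟩
    have h3 := h (w1 W) M Q (w1_smooth hW) (w1_high hW) hM hQ
    rw [TW_eq P Q (by linarith) W]
    refine mulQ hC hM0 hQ ?_
    have e : rk K P * W1 W * Q = rk K P * Q * (∫ u in Set.Ioi (0 : ℝ), w1 W u) := by
      have : (∫ u in Set.Ioi (0 : ℝ), w1 W u) = W1 W := rfl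
      rw [this]; ring
    rw [e]
    exact h3
  · obtain ⟨C, hC, h⟩ := h1 K 2 1 le_rfl one_pos
    refine ⟨C * M, mul_nonneg hC hM0, fun Q hQ => ?_⟩
    have h3 := h (w1 W) M Q (w1_smooth hW) (w1_high hW) hM hQ
    rw [TW_eq P Q (by linarith) W]
    refine mulQ hC hM0 hQ ?_
    have hcp : ∀ I : NI K, Cp P I.1 := by
      intro I p _
      by_contra hc
      exact hP ⟨p, mem_PM.2 (not_lt.1 hc)⟩
    have e1 : sumC (K := K) P (fun n => w1 W (nm n / Q)) = ∑' l : NI K, w1 W (nm l.1 / Q) := by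
      unfold sumC
      refine tsum_congr fun I => ?_
      rw [if_pos (hcp I)]
    have e2 : rk K P = rh K := by
      unfold rk
      rw [Finset.not_nonempty_iff_eq_empty.1 hP, Finset.prod_empty, mul_one]
    have e3 : w1 W 0 = 0 := by
      unfold w1
      rw [zero_mul]
    have e : rh K * W1 W * Q = rh K * Q * (∫ u in Set.Ioi (0 : ℝ), w1 W u) := by
      have : (∫ u in Set.Ioi (0 : ℝ), w1 W u) = W1 W := rfl
      rw [this]; ring
    rw [e1, e2, e]
    rw [e3, mul_zero, add_zero] at h3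
    exact h3

end Pool.Agent.H60.HH
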